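import Pool.Agent.MP_cce4c9_lc.H87.SpecR

/-!
The determinant of the elimination engine.
-/

set_option autoImplicit false

open Finset

namespace Pool.Agent.MP_cce4c9_lc.H86

open Pool.Agent.MP_cce4c9_lc.H87

theorem engP_map {R S : Type} [CommRing R] [CommRing S] (P : R →+* S) (v n i s : ℕ)
    (co : ℕ → ℕ → R) (y : ℕ → R) (γ γ' : ℕ) :
    P (engP v n i s co y γ γ') = engP v n i s (fun l J => P (co l J)) (fun j => P (y j)) γ γ' := by
  unfold engP
  split_ifs <;> simp [apply_ite P]

theorem aeval_engDet {k L : Type} [Field k] [Field L] [Algebra k L] (v n i s : ℕ) (co : ℕ → ℕ → k)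
    (a : Fin (v + 2) → L) : MvPolynomial.aeval a (engDet v n i s co) =
      (Matrix.of fun γ γ' : Fin (rho v n ^ v) =>
        engP v n i s (fun l J => algebraMap k L (co l J)) (ex a) γ γ').det := by
  have e : (fun j => (MvPolynomial.aeval a : MvPolynomial (Fin (v + 2)) k →ₐ[k] L).toRingHom
      (ex MvPolynomial.X j)) = ex a := by
    funext j
    unfold ex
    split_ifs <;> simp
  refine ((MvPolynomial.aeval a : MvPolynomial (Fin (v + 2)) k →ₐ[k] L).toRingHom.map_det _).trans
    (congrArg Matrix.det (Matrix.ext fun γ γ' => ?_))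
  refine (engP_map (MvPolynomial.aeval a : MvPolynomial (Fin (v + 2)) k →ₐ[k] L).toRingHom
    v n i s _ _ γ γ').trans ?_
  rw [e]
  simp

theorem rho_pos (v n : ℕ) : 2 ≤ rho v n := Nat.le_add_left _ _

theorem engDet_ne {k : Type} [Field k] (v n i s : ℕ) (co : ℕ → ℕ → k) : engDet v n i s co ≠ 0 := by
  intro h
  have e := aeval_engDet v n i s co (Matrix.vecCons (1 : k) 0)
  have h0 : ex (Matrix.vecCons (1 : k) (0 : Fin (v + 1) → k)) 0 = 1 := by simp [ex]
  have h1 : ex (Matrix.vecCons (1 : k) (0 : Fin (v + 1) → k)) 1 = 0 := by simp [ex]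
  have hp : 0 < rho v n ^ i := pow_pos (by have := rho_pos v n; omega) _
  rw [h, map_zero, Matrix.det_of_isUpperTriangular, prod_eq_one] at e
  · exact zero_ne_one e
  · intro γ _
    have : ¬ (γ : ℕ) = γ + rho v n ^ i := by omega
    simp only [Matrix.of_apply, engP, h0, h1, if_neg this]
    split_ifs <;> simp
  · intro γ γ' hl
    have hl' : (γ' : ℕ) < γ := hl
    have a1 : ¬ (γ' : ℕ) = γ := by omega
    have a2 : ¬ (γ' : ℕ) = γ + rho v n ^ i := by omega
    simp only [Matrix.of_apply, engP, h0, h1, if_neg a1, if_neg a2]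
    split_ifs <;> simp

theorem deg_det {σ k ι : Type} [CommRing k] [Fintype ι] [DecidableEq ι]
    (M : Matrix ι ι (MvPolynomial σ k)) (D : ℕ) (h : ∀ a b, (M a b).totalDegree ≤ D) :
    M.det.totalDegree ≤ Fintype.card ι * D := by
  rw [Matrix.det_apply']
  refine MvPolynomial.totalDegree_finsetSum_le fun τ _ => ?_
  refine (MvPolynomial.totalDegree_mul _ _).trans ?_
  have e : ((Equiv.Perm.sign τ : ℤ) : MvPolynomial σ k).totalDegree = 0 := by
    rw [← map_intCast (MvPolynomial.C : k →+* MvPolynomial σ k), MvPolynomial.totalDegree_C]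
  rw [e, zero_add]
  refine (MvPolynomial.totalDegree_finsetProd _ _).trans ?_
  refine (sum_le_card_nsmul _ _ D fun a _ => h _ _).trans ?_
  rw [card_univ, smul_eq_mul]

theorem deg_ex {k : Type} [Field k] (w j : ℕ) :
    (ex (MvPolynomial.X : Fin w → MvPolynomial (Fin w) k) j).totalDegree ≤ 1 := by
  unfold ex
  split_ifs <;> simp

theorem deg_ite {σ k : Type} [CommRing k] (p : Prop) [Decidable p] :
    (if p then 1 else 0 : MvPolynomial σ k).totalDegree = 0 := by
  split_ifs <;> simp

theorem deg_engP {k : Type} [Field k] (v n i s : ℕ) (co : ℕ → ℕ → k) (γ γ' : ℕ) :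
    (engP v n i s (fun l J => MvPolynomial.C (co l J))
      (ex (MvPolynomial.X : Fin (v + 2) → MvPolynomial (Fin (v + 2)) k)) γ γ').totalDegree ≤
      s + 1 := by
  unfold engP
  by_cases c1 : rho v n ≤ ds (rho v n) v γ
  · rw [if_pos c1, deg_ite]
    exact Nat.zero_le _
  rw [if_neg c1]
  by_cases c2 : fstJ v n γ = v
  · rw [if_pos c2]
    refine (MvPolynomial.totalDegree_sub _ _).trans (max_le ?_ ?_)
    · split_ifs
      · exact (deg_ex _ _).trans (Nat.le_add_left _ _)
      · simp
    · rw [deg_ite]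
      exact Nat.zero_le _
  rw [if_neg c2]
  refine (MvPolynomial.totalDegree_add _ _).trans (max_le ?_ ?_)
  · rw [deg_ite]
    exact Nat.zero_le _
  refine (MvPolynomial.totalDegree_mul _ _).trans ?_
  rw [add_comm s 1]
  refine add_le_add (deg_ex _ _) (MvPolynomial.totalDegree_finsetSum_le fun J _ => ?_)
  split_ifs
  · refine MvPolynomial.totalDegree_finsetSum_le fun l hl => ?_
    refine (MvPolynomial.totalDegree_mul _ _).trans ?_
    rw [MvPolynomial.totalDegree_C, add_zero]
    refine (MvPolynomial.totalDegree_pow _ _).trans ?_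
    have := Nat.mul_le_mul_left l (deg_ex (k := k) (v + 2) (fstJ v n γ + 2))
    have := mem_range.1 hl
    omega
  · simp

theorem fst_spec (v n γ : ℕ) :
    (fstJ v n γ = v → ∀ j < v, dig (rho v n) γ j ≤ dlt v n) ∧
    (fstJ v n γ ≠ v → fstJ v n γ < v ∧ dlt v n < dig (rho v n) γ (fstJ v n γ)) := by
  unfold fstJ
  cases h : (List.range v).filter fun j => decide (dlt v n < dig (rho v n) γ j) with
  | nil =>
    refine ⟨fun _ j hj => ?_, fun e => absurd rfl e⟩
    have := List.filter_eq_nil_iff.1 h j (List.mem_range.2 hj)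
    simpa using this
  | cons a t =>
    have ha : a ∈ (List.range v).filter fun j => decide (dlt v n < dig (rho v n) γ j) := by
      rw [h]; exact List.mem_cons_self
    obtain ⟨h1, h2⟩ := List.mem_filter.1 ha
    have h3 := List.mem_range.1 h1
    exact ⟨fun e => absurd e (by simp only [List.headD_cons]; omega),
      fun _ => ⟨h3, by simpa using h2⟩⟩

theorem mtch_iff (v n γ γ' J : ℕ) : mtch v n γ γ' J = true ↔ ∀ a < v,
    dig (rho v n) γ' a + (if a = fstJ v n γ then dlt v n + 1 else 0) =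
      dig (rho v n) γ a + dig n J a := by
  simp only [mtch, List.all_eq_true, List.mem_range, beq_iff_eq]

theorem lt_of_dig {r v J : ℕ} (hr : 2 ≤ r) (h : ∀ j, v ≤ j → dig r J j = 0) : J < r ^ v := by
  by_contra k
  have k1 : r ^ v ≤ J := not_lt.1 k
  have k0 : J ≠ 0 := by have := pow_pos (show 0 < r by omega) v; omega
  have k2 : v ≤ Nat.log r J := Nat.le_log_of_pow_le (by omega) k1
  have k3 := Nat.pow_log_le_self r k0
  have k4 := Nat.lt_pow_succ_log_self (show 1 < r by omega) J
  have hp : 0 < r ^ Nat.log r J := pow_pos (by omega) _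
  have k5 : J / r ^ Nat.log r J < r := by
    rw [Nat.div_lt_iff_lt_mul hp, mul_comm, ← pow_succ]
    exact k4
  have k6 := h _ k2
  rw [dig, Nat.mod_eq_of_lt k5] at k6
  have := Nat.div_pos k3 hp
  omega

theorem dig_big {r v J j : ℕ} (hr : 2 ≤ r) (hJ : J < r ^ v) (hj : v ≤ j) : dig r J j = 0 := by
  rw [dig, Nat.div_eq_of_lt (hJ.trans_le (Nat.pow_le_pow_right (by omega) hj)), Nat.zero_mod]

section ker
variable {L : Type} [Field L]

/-- The monomial with given exponents. -/
def mo (v : ℕ) (x : ℕ → L) (t : ℕ → ℕ) : L := ∏ a ∈ range v, x a ^ t a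

theorem mo_add {v : ℕ} (x : ℕ → L) {t t₁ t₂ : ℕ → ℕ} (h : ∀ a < v, t a = t₁ a + t₂ a) :
    mo v x t = mo v x t₁ * mo v x t₂ := by
  rw [mo, mo, mo, ← prod_mul_distrib]
  exact prod_congr rfl fun a ha => by rw [h a (mem_range.1 ha), pow_add]

theorem mo_single {v j : ℕ} (x : ℕ → L) (hj : j < v) (e : ℕ) :
    mo v x (fun a => if a = j then e else 0) = x j ^ e := by
  rw [mo, prod_eq_single j (fun a _ ha => by rw [if_neg ha, pow_zero])
    fun k => absurd (mem_range.2 hj) k, if_pos rfl]

/-- The kernel vector. -/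
def wv (v n : ℕ) (x : ℕ → L) (γ : ℕ) : L :=
  if ds (rho v n) v γ < rho v n then mo v x (dig (rho v n) γ) else 0

theorem sum_single {N g : ℕ} (hg : g < N) (c : L) (w : ℕ → L) :
    ∑ γ' ∈ range N, (if γ' = g then c else 0) * w γ' = c * w g := by
  rw [sum_eq_single g (fun a _ ha => by rw [if_neg ha, zero_mul])
    fun k => absurd (mem_range.2 hg) k, if_pos rfl]

theorem ds_small {n : ℕ} (hn : 0 < n) (v J : ℕ) : ∑ a ∈ range v, dig n J a ≤ dlt v n := by
  refine (sum_le_card_nsmul _ _ (n - 1) fun a _ => ?_).trans ?_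
  · have := dig_lt hn J a
    omega
  · rw [card_range, smul_eq_mul, dlt]

theorem row_mtch {v n γ : ℕ} (hn : 0 < n) (x : ℕ → L) (c1 : ds (rho v n) v γ < rho v n)
    (c2 : fstJ v n γ ≠ v) (J : ℕ) (c : L) :
    ∑ γ' ∈ range (rho v n ^ v), (if mtch v n γ γ' J = true then c else 0) * wv v n x γ' =
      c * (mo v x (fun a => dig (rho v n) γ a - if a = fstJ v n γ then dlt v n + 1 else 0) *
        mo v x (dig n J)) := by
  obtain ⟨h1, h2⟩ := (fst_spec v n γ).2 c2
  have hb : ∀ a, (if a = fstJ v n γ then dlt v n + 1 else 0) ≤ dig (rho v n) γ a := fun a => by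
    split_ifs with e
    · rw [e]; exact h2
    · exact Nat.zero_le _
  let t : ℕ → ℕ := fun a =>
    (dig (rho v n) γ a - if a = fstJ v n γ then dlt v n + 1 else 0) + dig n J a
  have ht : ∀ a, t a + (if a = fstJ v n γ then dlt v n + 1 else 0) =
      dig (rho v n) γ a + dig n J a := fun a => by
    have := hb a
    simp only [t]
    omega
  have hs : ∑ a ∈ range v, t a < rho v n := by
    have e : ∑ a ∈ range v, t a + ∑ a ∈ range v, (if a = fstJ v n γ then dlt v n + 1 else 0) =
        ds (rho v n) v γ + ∑ a ∈ range v, dig n J a := by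
      rw [ds_eq, ← sum_add_distrib, ← sum_add_distrib]
      exact sum_congr rfl fun a _ => ht a
    rw [sum_ite_eq', if_pos (mem_range.2 h1)] at e
    have := ds_small hn v J
    omega
  obtain ⟨g, hg, hd⟩ := exists_dig (n := rho v n) (V := v) t fun a ha =>
    (single_le_sum (f := t) (fun _ _ => Nat.zero_le _) (mem_range.2 ha)).trans_lt hs
  have hm : ∀ γ' ∈ range (rho v n ^ v), (mtch v n γ γ' J = true ↔ γ' = g) := fun γ' hγ' => by
    rw [mtch_iff]
    refine ⟨fun k => eq_of_dig (mem_range.1 hγ') hg fun a ha => ?_, fun k a ha => ?_⟩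
    · have := k a ha
      have := ht a
      have := hd a ha
      omega
    · rw [k, hd a ha, ht]
  rw [sum_congr rfl fun γ' hγ' => by rw [if_congr (hm γ' hγ') rfl rfl], sum_single hg, wv, if_pos,
    mo_add x fun a ha => hd a ha]
  rw [ds_eq, sum_congr rfl fun a ha => hd a (mem_range.1 ha)]
  exact hs

theorem row_zero {v n i s γ : ℕ} (hn : 0 < n) (hi : i < v) (hγ : γ < rho v n ^ v) (co : ℕ → ℕ → L)
    (x y : ℕ → L) (h0 : y 0 = x i)
    (hx : ∀ j < v, x j ^ (dlt v n + 1) + y 1 * ∑ l ∈ range s, y (j + 2) ^ l *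
      ∑ J ∈ range (n ^ v), co l J * mo v x (dig n J) = 0) :
    ∑ γ' ∈ range (rho v n ^ v), engP v n i s co y γ γ' * wv v n x γ' = 0 := by
  unfold engP
  by_cases c1 : rho v n ≤ ds (rho v n) v γ
  · simp only [if_pos c1]
    rw [sum_single hγ, wv, if_neg (by omega), mul_zero]
  simp only [if_neg c1]
  by_cases c2 : fstJ v n γ = v
  · simp only [if_pos c2, sub_mul, sum_sub_distrib]
    have h1 := (fst_spec v n γ).1 c2
    have h2 : dig (rho v n) γ i + 1 < rho v n := by
      have := h1 i hi
      have : dlt v n ≤ v * dlt v n := Nat.le_mul_of_pos_left _ (by omega)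
      unfold rho at *
      omega
    have h3 := dig_add_pow h2
    have h4 : γ + rho v n ^ i < rho v n ^ v := lt_of_dig (rho_pos v n) fun j hj => by
      rw [h3, dig_big (rho_pos v n) hγ hj, if_neg (by omega)]
    have h5 : ds (rho v n) v (γ + rho v n ^ i) < rho v n := by
      rw [ds_eq, sum_congr rfl fun a _ => h3 a, sum_add_distrib, sum_ite_eq',
        if_pos (mem_range.2 hi)]
      have := sum_le_card_nsmul (range v) (fun a => dig (rho v n) γ a) (dlt v n)
        fun a ha => h1 a (mem_range.1 ha)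
      rw [card_range, smul_eq_mul] at this
      exact lt_of_le_of_lt (Nat.add_le_add_right this 1) (Nat.lt_succ_self _)
    rw [sum_single hγ, sum_single h4, wv, wv, if_pos (by omega), if_pos h5,
      mo_add x fun a _ => h3 a, mo_single x hi, h0]
    ring
  obtain ⟨h1, h2⟩ := (fst_spec v n γ).2 c2
  simp only [if_neg c2, add_mul, sum_add_distrib, mul_assoc, ← mul_sum, sum_mul]
  rw [sum_single hγ, sum_comm, sum_congr rfl fun J _ => row_mtch hn x (by omega) c2 J _, wv,
    if_pos (by omega), mo_add x (t₁ := fun a => dig (rho v n) γ a -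
      if a = fstJ v n γ then dlt v n + 1 else 0)
      (t₂ := fun a => if a = fstJ v n γ then dlt v n + 1 else 0) fun a _ => by
        split_ifs with e
        · rw [e]; omega
        · rfl, mo_single x h1]
  have e := hx _ h1
  have e2 : ∑ J ∈ range (n ^ v), (∑ l ∈ range s, y (fstJ v n γ + 2) ^ l * co l J) *
      (mo v x (fun a => dig (rho v n) γ a - if a = fstJ v n γ then dlt v n + 1 else 0) *
        mo v x (dig n J)) =
      mo v x (fun a => dig (rho v n) γ a - if a = fstJ v n γ then dlt v n + 1 else 0) *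
        ∑ l ∈ range s, y (fstJ v n γ + 2) ^ l * ∑ J ∈ range (n ^ v), co l J * mo v x (dig n J) := by
    simp only [sum_mul, mul_sum]
    rw [sum_comm]
    exact sum_congr rfl fun l _ => sum_congr rfl fun J _ => by ring
  rw [e2]
  linear_combination
    mo v x (fun a => dig (rho v n) γ a - if a = fstJ v n γ then dlt v n + 1 else 0) * e

end ker

theorem engb : StmtENGB := by
  intro k _ v n s i co hn
  refine ⟨engDet_ne _ _ _ _ _, ?_, fun L _ _ ξ η u h => ?_⟩
  · refine Nat.lt_succ_of_le ((deg_det (ι := Fin (rho v n ^ v)) _ (s + 1)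
      fun γ γ' => deg_engP v n i s co γ γ').trans ?_)
    rw [Fintype.card_fin]
  rw [aeval_engDet]
  have hp : 0 < rho v n ^ v := pow_pos (by have := rho_pos v n; omega) _
  refine Matrix.exists_mulVec_eq_zero_iff.1
    ⟨fun γ : Fin (rho v n ^ v) => wv v n (ex ξ) γ, fun e => ?_, funext fun γ => ?_⟩
  · have e1 : wv v n (ex ξ) 0 = 0 := congrFun e ⟨0, hp⟩
    have e2 : ∀ a, dig (rho v n) 0 a = 0 := fun a => by simp [dig]
    have e3 : ds (rho v n) v 0 < rho v n := by
      rw [ds_eq, sum_eq_zero fun a _ => e2 a]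
      have := rho_pos v n
      omega
    rw [wv, if_pos e3, mo, Finset.prod_eq_one fun a _ => by rw [e2, pow_zero]] at e1
    exact one_ne_zero e1
  refine Eq.trans ?_ (row_zero (s := s) hn i.2 γ.2 (fun l J => algebraMap k L (co l J)) (ex ξ)
    (ex (Matrix.vecCons (ξ i) (Matrix.vecCons η u))) (by simp [ex]) fun j hj => ?_)
  · rw [sum_range]
    rfl
  have e := h ⟨j, hj⟩
  have e1 : ex (Matrix.vecCons (ξ i) (Matrix.vecCons η u)) 1 = η := by simp [ex]
  have e2 : ex (Matrix.vecCons (ξ i) (Matrix.vecCons η u)) (j + 2) = u ⟨j, hj⟩ := by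
    rw [ex, dif_pos (by omega)]
    rfl
  have e3 : ex ξ j = ξ ⟨j, hj⟩ := dif_pos hj
  have e4 : ∀ J, mo v (ex ξ) (dig n J) = ∏ a, ξ a ^ exps n v J a := fun J => by
    rw [mo, prod_range]
    exact prod_congr rfl fun a _ => by simp [ex, exps]
  rw [e1, e2, e3, ← e]
  simp only [map_sum, MvPolynomial.aeval_monomial, Finsupp.prod_pow, e4]

end Pool.Agent.MP_cce4c9_lc.H86
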